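import Pool.Agent.Helper6.LP.St
import Pool.Agent.Helper9.SU.M_ALL

/-!
# Project LP, module SV6: the sieve with at most six classes (both inequalities)
-/

set_option autoImplicit false

noncomputable section

namespace Pool.Agent.Helper1.LP

open Finset
open Pool.Agent.Helper6.LP
open Pool.Agent.Helper18.TR (StFL)

/-- Module SV6. -/
theorem hSV6 (hF : StFL) : StSV6 := by
  intro ε hε
  obtain ⟨B, hB⟩ := hF 6 ε (by norm_num) hε
  refine ⟨B + B, ?_⟩
  intro w M hw Q S hQp hS
  have hw1 : (1 : ℝ) ≤ w := by exact_mod_cast (by omega : 1 ≤ w)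
  set g : ℕ → ℝ := fun l => ((S l).card : ℝ) / l with hg
  have hg3 : ∀ l ∈ Q, 0 ≤ g l ∧ g l ≤ 6 / l ∧ g l ≤ 1 / 2 := by
    intro l hl
    obtain ⟨hp, h5, _⟩ := hQp l hl
    have hc := (hS l hl).2
    have hcR : ((S l).card : ℝ) ≤ 6 := by exact_mod_cast hc
    have h1 : (12 : ℝ) ≤ l := by exact_mod_cast h5
    refine ⟨by rw [hg]; positivity, ?_, ?_⟩
    · rw [hg]
      exact div_le_div_of_nonneg_right hcR (by linarith)
    · rw [hg]
      show ((S l).card : ℝ) / l ≤ 1 / 2
      rw [div_le_div_iff₀ (by linarith) (by norm_num)]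
      linarith
  have hfin := hB w hw Q (fun p hp => ⟨(hQp p hp).1, (hQp p hp).2.2⟩) g hg3 ℕ (Icc 1 M)
    (fun l n => n % l ∈ S l) (M : ℝ) ((w : ℝ) ^ B) (Nat.cast_nonneg M)
    (by positivity) (by
      intro T hT hTw
      have h1 := Pool.Agent.Helper9.SU.cntT_ALL 0 M S T (by
        intro l hl
        exact ⟨(hQp l (hT hl)).1, (hS l (hT hl)).1⟩) 1 0 le_rfl
        (fun l _ => Nat.coprime_one_right l)
      have h2 : (Ioc 0 (0 + M)).filter (fun e => e % 1 = 0 % 1 ∧ ∀ l ∈ T, e % l ∈ S l) =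
          (Icc 1 M).filter (fun e => ∀ l ∈ T, e % l ∈ S l) := by
        ext e
        simp only [mem_filter, mem_Ioc, mem_Icc, Nat.mod_one, true_and]
        constructor
        · rintro ⟨h3, h4⟩
          exact ⟨by omega, h4⟩
        · rintro ⟨h3, h4⟩
          exact ⟨by omega, h4⟩
      rw [h2, Nat.cast_one, div_one] at h1
      have h1' : |(((Icc 1 M).filter (fun e => ∀ l ∈ T, e % l ∈ S l)).card : ℝ) -
          (M : ℝ) * ∏ l ∈ T, g l| ≤ ∏ l ∈ T, ((S l).card : ℝ) := by convert h1 using 1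
      refine le_trans (by convert h1' using 1) ?_
      calc ∏ l ∈ T, ((S l).card : ℝ) ≤ ∏ l ∈ T, (l : ℝ) := by
            refine prod_le_prod (fun _ _ => Nat.cast_nonneg _) ?_
            intro l hl
            have h5 := (hQp l (hT hl)).2.1
            have h2 := (hS l (hT hl)).2
            exact_mod_cast (by omega : (S l).card ≤ l)
        _ = ((∏ l ∈ T, l : ℕ) : ℝ) := by push_cast; rfl
        _ ≤ ((w ^ B : ℕ) : ℝ) := by exact_mod_cast hTw
        _ = (w : ℝ) ^ B := by push_cast; rfl)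
  rw [← pow_add] at hfin
  convert hfin using 1

end Pool.Agent.Helper1.LP
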